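import Mathlib

set_option autoImplicit false
open MeasureTheory Set
open scoped Pointwise ENNReal

namespace Pool.Agent.H448Z.Riesz

/-- coordinate box with side lengths `a i` -/
def box {N : ℕ} (a : Fin N → ℝ) : Set (EuclideanSpace ℝ (Fin N)) :=
  {x | ∀ i, x i ∈ Set.Icc 0 (a i)}

theorem box_compact {N : ℕ} (a : Fin N → ℝ) : IsCompact (box a) := by
  have h : IsCompact (Set.pi Set.univ fun i => Set.Icc (0 : ℝ) (a i)) :=
    isCompact_univ_pi fun _ => isCompact_Icc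
  have h2 := (EuclideanSpace.equiv (Fin N) ℝ).toHomeomorph.isCompact_preimage.2 h
  convert h2 using 1
  ext x
  simp only [box, Set.mem_ofPred_eq, Set.mem_preimage, Set.mem_pi, Set.mem_univ, true_implies]
  rfl

theorem box_convex {N : ℕ} (a : Fin N → ℝ) : Convex ℝ (box a) := by
  intro x hx y hy s t hs ht hst i
  have h1 := hx i
  have h2 := hy i
  have := convex_Icc (0 : ℝ) (a i) h1 h2 hs ht hst
  simpa using this

theorem box_interior {N : ℕ} (a : Fin N → ℝ) (ha : ∀ i, 0 < a i) :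
    (interior (box a)).Nonempty := by
  have hopen : IsOpen {x : EuclideanSpace ℝ (Fin N) | ∀ i, x i ∈ Set.Ioo 0 (a i)} := by
    have : {x : EuclideanSpace ℝ (Fin N) | ∀ i, x i ∈ Set.Ioo 0 (a i)}
        = ⋂ i, (fun x : EuclideanSpace ℝ (Fin N) => x i) ⁻¹' Set.Ioo 0 (a i) := by
      ext x; simp
    rw [this]
    exact isOpen_iInter_of_finite fun i => isOpen_Ioo.preimage (by fun_prop)
  refine ⟨WithLp.toLp 2 fun i => a i / 2, ?_⟩
  have hsub : {x : EuclideanSpace ℝ (Fin N) | ∀ i, x i ∈ Set.Ioo 0 (a i)} ⊆ box a :=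
    fun x hx i => Set.Ioo_subset_Icc_self (hx i)
  refine interior_maximal hsub hopen ?_
  intro i
  have := ha i
  constructor <;> simp <;> linarith

theorem box_comb {N : ℕ} (a b : Fin N → ℝ) (t : ℝ) (h0 : 0 ≤ t) (h1 : t ≤ 1) :
    t • box a + (1 - t) • box b ⊆ box (t • a + (1 - t) • b) := by
  rintro _ ⟨_, ⟨x, hx, rfl⟩, _, ⟨y, hy, rfl⟩, rfl⟩ i
  have h2 := hx i
  have h3 := hy i
  have h4 : 0 ≤ 1 - t := by linarith
  simp only [Set.mem_Icc] at h2 h3
  simp only [PiLp.add_apply, PiLp.smul_apply, smul_eq_mul, Pi.add_apply, Pi.smul_apply,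
    Set.mem_Icc]
  constructor
  · have := mul_nonneg h0 h2.1
    have := mul_nonneg h4 h3.1
    linarith
  · have := mul_le_mul_of_nonneg_left h2.2 h0
    have := mul_le_mul_of_nonneg_left h3.2 h4
    linarith

/-- minimal energy -/
noncomputable def en {N : ℕ} (p : ℝ) (K : Set (EuclideanSpace ℝ (Fin N))) : ℝ≥0∞ :=
  ⨅ (μ : Measure (EuclideanSpace ℝ (Fin N))) (_ : IsProbabilityMeasure μ) (_ : μ Kᶜ = 0),
    ∫⁻ x, ∫⁻ y, (edist x y) ^ p ∂μ ∂μ

theorem en_anti {N : ℕ} (p : ℝ) {K L : Set (EuclideanSpace ℝ (Fin N))} (h : K ⊆ L) :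
    en p L ≤ en p K := by
  unfold en
  refine le_iInf fun μ => le_iInf fun hμ => le_iInf fun hK => ?_
  exact iInf_le_of_le μ (iInf_le_of_le hμ (iInf_le_of_le
    (measure_mono_null (Set.compl_subset_compl.2 h) hK) le_rfl))

theorem en_lower {N : ℕ} (p : ℝ) (hp : p ≤ 0) (K : Set (EuclideanSpace ℝ (Fin N))) (D : ℝ≥0∞)
    (hD : ∀ x ∈ K, ∀ y ∈ K, edist x y ≤ D) : D ^ p ≤ en p K := by
  unfold en
  refine le_iInf fun μ => le_iInf fun hμ => le_iInf fun hK => ?_
  have hae : ∀ᵐ x ∂μ, x ∈ K := hK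
  calc D ^ p = ∫⁻ _x, D ^ p ∂μ := by simp
    _ ≤ _ := by
      refine lintegral_mono_ae ?_
      filter_upwards [hae] with x hx
      calc D ^ p = ∫⁻ _y, D ^ p ∂μ := by simp
        _ ≤ _ := by
          refine lintegral_mono_ae ?_
          filter_upwards [hae] with y hy
          have e1 : ∀ z : ℝ≥0∞, z ^ p = (z ^ (-p))⁻¹ := fun z => by
            rw [← ENNReal.rpow_neg, neg_neg]
          rw [e1, e1]
          exact ENNReal.inv_le_inv.2 (ENNReal.rpow_le_rpow (hD x hx y hy) (by linarith))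

/-- energy of the unit segment -/
noncomputable def E0 : ℝ≥0∞ :=
  ∫⁻ u in Set.Icc (0 : ℝ) 1, ∫⁻ v in Set.Icc (0 : ℝ) 1, (edist u v) ^ (-(1 / 2 : ℝ))

theorem inner_le (u : ℝ) (hu : u ∈ Set.Icc (0 : ℝ) 1) :
    ∫⁻ v in Set.Icc (0 : ℝ) 1, (edist u v) ^ (-(1 / 2 : ℝ))
      ≤ ∫⁻ w in Set.Icc (-1 : ℝ) 1, ENNReal.ofReal (|w| ^ (-(1 / 2 : ℝ))) := by
  have h1 : ∫⁻ v in Set.Icc (0 : ℝ) 1, (edist u v) ^ (-(1 / 2 : ℝ))
      = ∫⁻ v in Set.Icc (0 : ℝ) 1, ENNReal.ofReal (|v - u| ^ (-(1 / 2 : ℝ))) := by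
    refine lintegral_congr_ae ?_
    have : ∀ᵐ v ∂(volume.restrict (Set.Icc (0 : ℝ) 1)), v ≠ u := by
      refine ae_restrict_of_ae ?_
      simp [ae_iff]
    filter_upwards [this] with v hv
    rw [edist_comm, edist_dist, Real.dist_eq,
      ENNReal.ofReal_rpow_of_pos (abs_pos.2 (sub_ne_zero.2 hv))]
  rw [h1]
  have h2 : ∫⁻ v in Set.Icc (0 : ℝ) 1, ENNReal.ofReal (|v - u| ^ (-(1 / 2 : ℝ)))
      ≤ ∫⁻ v in (fun v => v - u) ⁻¹' Set.Icc (-1 : ℝ) 1,
          ENNReal.ofReal (|v - u| ^ (-(1 / 2 : ℝ))) := by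
    refine lintegral_mono_set ?_
    intro v hv
    simp only [Set.mem_preimage, Set.mem_Icc] at hv hu ⊢
    constructor <;> linarith [hv.1, hv.2, hu.1, hu.2]
  refine h2.trans (le_of_eq ?_)
  exact (measurePreserving_sub_right volume u).setLIntegral_comp_preimage
    (f := fun w : ℝ => ENNReal.ofReal (|w| ^ (-(1 / 2 : ℝ)))) measurableSet_Icc (by fun_prop)

theorem base_lt : ∫⁻ w in Set.Icc (-1 : ℝ) 1, ENNReal.ofReal (|w| ^ (-(1 / 2 : ℝ))) < ⊤ := by
  have h1 : IntervalIntegrable (fun w : ℝ => |w| ^ (-(1 / 2 : ℝ))) volume 0 1 := by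
    have h := intervalIntegral.intervalIntegrable_rpow' (a := 0) (b := 1)
      (r := -(1 / 2 : ℝ)) (by norm_num)
    refine h.congr ?_
    intro x hx
    rw [Set.uIoc_of_le (by norm_num)] at hx
    simp only [abs_of_pos hx.1]
  have h2 : IntervalIntegrable (fun w : ℝ => |w| ^ (-(1 / 2 : ℝ))) volume (-1) 0 := by
    have := (IntervalIntegrable.iff_comp_neg (by simp)).1 h1
    simpa using this.symm
  have h3 := h2.trans h1
  rw [intervalIntegrable_iff_integrableOn_Icc_of_le (by norm_num)] at h3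
  exact h3.lintegral_lt_top

theorem E0_lt : E0 < ⊤ := by
  unfold E0
  calc _ ≤ ∫⁻ _u in Set.Icc (0 : ℝ) 1,
        ∫⁻ w in Set.Icc (-1 : ℝ) 1, ENNReal.ofReal (|w| ^ (-(1 / 2 : ℝ))) := by
        refine setLIntegral_mono' measurableSet_Icc fun u hu => inner_le u hu
    _ < ⊤ := by
        rw [setLIntegral_const]
        simpa using base_lt

theorem en_upper {N : ℕ} (a : Fin N → ℝ) (ha : ∀ j, 0 ≤ a j) (i : Fin N) (hi : 1 ≤ a i) :
    en (-(1 / 2 : ℝ)) (box a) ≤ E0 := by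
  let f : ℝ → EuclideanSpace ℝ (Fin N) := fun u => EuclideanSpace.single i u
  have hiso : Isometry f := by
    intro u v
    simp [f]
  have hf : Measurable f := hiso.continuous.measurable
  let ν : Measure ℝ := volume.restrict (Set.Icc (0 : ℝ) 1)
  have hν : IsProbabilityMeasure ν := ⟨by simp [ν]⟩
  have hμ : IsProbabilityMeasure (ν.map f) := Measure.isProbabilityMeasure_map hf.aemeasurable
  have hK : (ν.map f) (box a)ᶜ = 0 := by
    rw [Measure.map_apply hf (box_compact a).isClosed.measurableSet.compl]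
    have : ∀ᵐ u ∂ν, u ∈ Set.Icc (0 : ℝ) 1 := ae_restrict_mem measurableSet_Icc
    refine measure_mono_null ?_ this
    intro u hu hu2
    apply hu
    intro j
    by_cases hj : j = i
    · subst hj
      simp only [f, EuclideanSpace.single, PiLp.single_apply, if_true]
      exact ⟨hu2.1, hu2.2.trans hi⟩
    · simp only [f, EuclideanSpace.single, PiLp.single_apply, if_neg hj]
      exact ⟨le_rfl, ha j⟩
  unfold en
  refine iInf_le_of_le (ν.map f) (iInf_le_of_le hμ (iInf_le_of_le hK (le_of_eq ?_)))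
  have hemb : MeasurableEmbedding f := hiso.isClosedEmbedding.measurableEmbedding
  rw [hemb.lintegral_map]
  unfold E0
  refine lintegral_congr fun u => ?_
  rw [hemb.lintegral_map]
  refine lintegral_congr fun v => ?_
  rw [hiso.edist_eq]

theorem box_diam {N : ℕ} (a : Fin N → ℝ) (r : ℝ) (ha : ∀ j, a j ≤ r) (hr : 0 ≤ r)
    (x : EuclideanSpace ℝ (Fin N)) (hx : x ∈ box a) (y : EuclideanSpace ℝ (Fin N)) (hy : y ∈ box a) :
    edist x y ≤ ENNReal.ofReal (Real.sqrt N * r) := by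
  rw [edist_dist]
  refine ENNReal.ofReal_le_ofReal ?_
  rw [EuclideanSpace.dist_eq]
  have h1 : ∑ i, dist (x i) (y i) ^ 2 ≤ (N : ℝ) * r ^ 2 := by
    calc ∑ i, dist (x i) (y i) ^ 2 ≤ ∑ _i : Fin N, r ^ 2 := by
          refine Finset.sum_le_sum fun i _ => ?_
          have h2 := hx i
          have h3 := hy i
          have h4 := ha i
          simp only [Set.mem_Icc] at h2 h3
          rw [Real.dist_eq, sq_abs]
          nlinarith [h2.1, h2.2, h3.1, h3.2]
      _ = _ := by simp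
  calc Real.sqrt (∑ i, dist (x i) (y i) ^ 2) ≤ Real.sqrt ((N : ℝ) * r ^ 2) := Real.sqrt_le_sqrt h1
    _ = _ := by rw [Real.sqrt_mul (Nat.cast_nonneg N), Real.sqrt_sq hr]

theorem key (N : ℕ) (hN : 0 < N)
    (H : ∀ K₀ K₁ : Set (EuclideanSpace ℝ (Fin N)),
        IsCompact K₀ → Convex ℝ K₀ → (interior K₀).Nonempty →
        IsCompact K₁ → Convex ℝ K₁ → (interior K₁).Nonempty →
        ∀ t : ℝ, 0 ≤ t → t ≤ 1 →
          ENNReal.ofReal t * (en (-(1 / 2 : ℝ)) K₁)⁻¹ ^ (2 : ℝ)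
            + ENNReal.ofReal (1 - t) * (en (-(1 / 2 : ℝ)) K₀)⁻¹ ^ (2 : ℝ)
            ≤ (en (-(1 / 2 : ℝ)) (t • K₁ + (1 - t) • K₀))⁻¹ ^ (2 : ℝ)) :
    E0⁻¹ ^ (2 : ℝ) ≤ ENNReal.ofReal (Real.sqrt N * (2 / N)) := by
  have hNr : (0 : ℝ) < N := by exact_mod_cast hN
  have hN1 : (1 : ℝ) ≤ N := by exact_mod_cast hN
  let S : Set (Fin N → ℝ) :=
    {a | (∀ i, 0 < a i) ∧ E0⁻¹ ^ (2 : ℝ) ≤ (en (-(1 / 2 : ℝ)) (box a))⁻¹ ^ (2 : ℝ)}
  have hS : Convex ℝ S := by
    intro a ha b hb s t hs ht hst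
    have ht' : t = 1 - s := by linarith
    subst ht'
    refine ⟨fun i => ?_, ?_⟩
    · have h1 := ha.1 i
      have h2 := hb.1 i
      simp only [Pi.add_apply, Pi.smul_apply, smul_eq_mul]
      rcases eq_or_lt_of_le hs with h | h
      · subst h; simpa using h2
      · have := mul_pos h h1
        have := mul_nonneg ht h2.le
        linarith
    · have h := H (box b) (box a) (box_compact b) (box_convex b) (box_interior b hb.1)
        (box_compact a) (box_convex a) (box_interior a ha.1) s hs (by linarith)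
      calc E0⁻¹ ^ (2 : ℝ)
          = ENNReal.ofReal s * E0⁻¹ ^ (2 : ℝ) + ENNReal.ofReal (1 - s) * E0⁻¹ ^ (2 : ℝ) := by
            rw [← add_mul, ← ENNReal.ofReal_add hs ht]; simp
        _ ≤ _ := add_le_add (mul_le_mul_right ha.2 _) (mul_le_mul_right hb.2 _)
        _ ≤ _ := h
        _ ≤ _ := ENNReal.rpow_le_rpow
            (ENNReal.inv_le_inv.2 (en_anti _ (box_comb a b s hs (by linarith)))) (by norm_num)
  let v : Fin N → Fin N → ℝ := fun i j => if j = i then 1 else 1 / N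
  have hv : ∀ i, v i ∈ S := by
    intro i
    have hpos : ∀ j, 0 < v i j := fun j => by
      by_cases h : j = i
      · simp [v, h]
      · simp [v, h, hNr]
    exact ⟨hpos, ENNReal.rpow_le_rpow (ENNReal.inv_le_inv.2
      (en_upper (v i) (fun j => (hpos j).le) i (by simp [v]))) (by norm_num)⟩
  have hw : ∑ i : Fin N, (1 / (N : ℝ)) • v i ∈ S :=
    hS.sum_mem (fun _ _ => by positivity) (by simp; field_simp) fun i _ => hv i
  refine hw.2.trans ?_
  have hle : ∀ j, (∑ i : Fin N, (1 / (N : ℝ)) • v i) j ≤ 2 / N := by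
    intro j
    rw [Finset.sum_apply]
    simp only [Pi.smul_apply, smul_eq_mul]
    rw [← Finset.mul_sum]
    have h1 : ∑ i : Fin N, v i j ≤ 2 := by
      calc ∑ i : Fin N, v i j ≤ ∑ i : Fin N, ((if j = i then 1 else 0) + 1 / (N : ℝ)) := by
            refine Finset.sum_le_sum fun i _ => ?_
            by_cases h : j = i
            · simp [v, h]
            · simp [v, h]
        _ = 2 := by
            rw [Finset.sum_add_distrib]
            simp
            field_simp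
            norm_num
    calc 1 / (N : ℝ) * ∑ i : Fin N, v i j ≤ 1 / (N : ℝ) * 2 :=
          mul_le_mul_of_nonneg_left h1 (by positivity)
      _ = 2 / N := by ring
  have h3 := en_lower (-(1 / 2 : ℝ)) (by norm_num) _ _
    (fun x hx y hy => box_diam _ (2 / N) hle (by positivity) x hx y hy)
  calc _ ≤ ((ENNReal.ofReal (Real.sqrt N * (2 / N))) ^ (-(1 / 2 : ℝ)))⁻¹ ^ (2 : ℝ) :=
        ENNReal.rpow_le_rpow (ENNReal.inv_le_inv.2 h3) (by norm_num)
    _ = _ := by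
        rw [← ENNReal.rpow_neg, neg_neg, ← ENNReal.rpow_mul]
        norm_num

theorem exists_N : ∃ N : ℕ, 2 ≤ N ∧
    ENNReal.ofReal (Real.sqrt N * (2 / N)) < E0⁻¹ ^ (2 : ℝ) := by
  have hpos : 0 < E0⁻¹ ^ (2 : ℝ) :=
    ENNReal.rpow_pos_of_nonneg (ENNReal.inv_pos.2 E0_lt.ne) (by norm_num)
  obtain ⟨c, hc0, hc⟩ : ∃ c : ℝ, 0 < c ∧ ENNReal.ofReal c < E0⁻¹ ^ (2 : ℝ) := by
    obtain ⟨r, hr0, hr⟩ := ENNReal.lt_iff_exists_nnreal_btwn.1 hpos
    exact ⟨r, by exact_mod_cast hr0, by simpa using hr⟩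
  obtain ⟨M, hM⟩ := exists_nat_gt (2 / c)
  refine ⟨(M + 2) ^ 2, by nlinarith [Nat.zero_le M, Nat.zero_le (M ^ 2)], lt_of_le_of_lt (ENNReal.ofReal_le_ofReal ?_) hc⟩
  have h1 : Real.sqrt (((M + 2) ^ 2 : ℕ) : ℝ) = (M : ℝ) + 2 := by
    push_cast
    exact Real.sqrt_sq (by positivity)
  rw [h1]
  push_cast
  have h2 : (0 : ℝ) < (M : ℝ) + 2 := by positivity
  rw [div_lt_iff₀ hc0] at hM
  have h3 : ((M : ℝ) + 2) * (2 / ((M : ℝ) + 2) ^ 2) = 2 / ((M : ℝ) + 2) := by field_simp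
  rw [h3, div_le_iff₀ h2]
  nlinarith

end Pool.Agent.H448Z.Riesz
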